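import Mathlib

/-!
The pair statement: the strip between the relative heights kappa and 1 - kappa of a plane convex body L is
covered by three translates of (1 - kappa) L.
-/

set_option autoImplicit false

open Set

namespace Pool.Agent.H90.PP

/-- The pair statement. -/
def PairP : Prop :=
  ∀ L : Set (ℝ × ℝ), IsCompact L → Convex ℝ L → L.Nonempty → ∀ κ : ℝ, 0 < κ → κ ≤ 2 / 3 →
  ∀ p q : ℝ, (∀ v ∈ L, -q ≤ v.2 ∧ v.2 ≤ p) → (∃ v ∈ L, v.2 = p) → (∃ v ∈ L, v.2 = -q) →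
    ∃ T : Fin 3 → ℝ × ℝ, ∀ z ∈ L, -q + κ * (p + q) ≤ z.2 → z.2 ≤ p - κ * (p + q) →
      ∃ j, ∃ l ∈ L, z = T j + (1 - κ) • l

theorem cvx {M : Set (ℝ × ℝ)} (hc : Convex ℝ M) {x y x' y' t X Y : ℝ} (h : (x, y) ∈ M) (h' : (x', y') ∈ M)
    (h0 : 0 ≤ t) (h1 : t ≤ 1) (hX : X = (1 - t) * x + t * x') (hY : Y = (1 - t) * y + t * y') : (X, Y) ∈ M := by
  have := hc h h' (sub_nonneg.2 h1) h0 (by ring)
  have e : (X, Y) = (1 - t) • (x, y) + t • (x', y') := by
    ext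
    · simpa using hX
    · simpa using hY
  rw [e]
  exact this

/-- A point of a horizontal segment. -/
theorem mid {M : Set (ℝ × ℝ)} (hc : Convex ℝ M) {x x' y X : ℝ} (h : (x, y) ∈ M) (h' : (x', y) ∈ M)
    (h0 : x ≤ X) (h1 : X ≤ x') : (X, y) ∈ M := by
  rcases (h0.trans h1).eq_or_lt with e | e
  · have : X = x := le_antisymm (by rw [e]; exact h1) h0
    rw [this]
    exact h
  · have hd : 0 < x' - x := sub_pos.2 e
    refine cvx hc (t := (X - x) / (x' - x)) h h' (div_nonneg (by linarith) hd.le) ((div_le_one hd).2 (by linarith)) ?_ ?_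
    · have : (X - x) / (x' - x) * (x' - x) = X - x := div_mul_cancel₀ _ hd.ne'
      linear_combination -this
    · ring

/-- Extent of a piece. -/
theorem ext_r {M : Set (ℝ × ℝ)} (hc : Convex ℝ M) (h0 : ((0 : ℝ), (0 : ℝ)) ∈ M) (h1 : ((0 : ℝ), (1 : ℝ)) ∈ M)
    {κ rB rT Y τ y : ℝ} (hk : 0 < κ) (hk2 : κ ≤ 1 / 2) (hB : (rB, κ) ∈ M) (hT : (rT, 1 - κ) ∈ M) (hY : κ ≤ Y)
    (hY2 : Y ≤ 1 - κ) (ht : 0 ≤ τ) (ht1 : τ ≤ 1) (hy : y = κ + τ * (1 - 2 * κ)) :
    ((rB * (1 - Y) * (1 - τ) + rT * Y * τ) / (1 - κ), (y - κ * Y) / (1 - κ)) ∈ M := by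
  have hk1 : 0 < 1 - κ := by linarith
  have p0 : (rB * (1 - Y) / (1 - κ), κ * (1 - Y) / (1 - κ)) ∈ M := by
    refine cvx hc (t := (1 - Y) / (1 - κ)) h0 hB (div_nonneg (by linarith) hk1.le) ((div_le_one hk1).2 (by linarith)) ?_ ?_
    · field_simp
      ring
    · field_simp
      ring
  have p1 : (rT * Y / (1 - κ), 1 - κ * Y / (1 - κ)) ∈ M := by
    refine cvx hc (t := Y / (1 - κ)) h1 hT (div_nonneg (by linarith) hk1.le) ((div_le_one hk1).2 (by linarith)) ?_ ?_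
    · field_simp
      ring
    · field_simp
      ring
  refine cvx hc (t := τ) p0 p1 ht ht1 ?_ ?_
  · field_simp
  · rw [hy]
    field_simp
    ring

/-- The left piece. -/
theorem outer {M : Set (ℝ × ℝ)} (hc : Convex ℝ M) (h0 : ((0 : ℝ), (0 : ℝ)) ∈ M) (h1 : ((0 : ℝ), (1 : ℝ)) ∈ M)
    {κ rB rT lB lT a lam τ x y : ℝ} (hk : 0 < κ) (hk2 : κ ≤ 1 / 2) (hB : (rB, κ) ∈ M) (hT : (rT, 1 - κ) ∈ M)
    (hlB : ∀ x, (x, κ) ∈ M → -lB ≤ x) (hlT : ∀ x, (x, 1 - κ) ∈ M → -lT ≤ x)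
    (ha : κ ≤ a) (ha2 : a ≤ 1 - κ) (hl : lam = lB * a) (hl2 : lam = lT * (1 - a)) (hlam : 0 ≤ lam)
    (ht : 0 ≤ τ) (ht1 : τ ≤ 1) (hy : y = κ + τ * (1 - 2 * κ)) (hz : (x, y) ∈ M)
    (hx : x ≤ -lam + (rB * (1 - a) * (1 - τ) + rT * a * τ)) :
    ((x + lam) / (1 - κ), (y - κ * a) / (1 - κ)) ∈ M := by
  have hk1 : 0 < 1 - κ := by linarith
  have hyk : κ ≤ y := by rw [hy]; nlinarith
  have hyk2 : y ≤ 1 - κ := by rw [hy]; nlinarith
  have hE := ext_r hc h0 h1 hk hk2 hB hT ha ha2 ht ht1 hy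
  have hh : 0 ≤ (y - κ * a) / (1 - κ) := div_nonneg (by nlinarith) hk1.le
  have hh1 : (y - κ * a) / (1 - κ) ≤ 1 := (div_le_one hk1).2 (by nlinarith)
  have hmid0 : ((0 : ℝ), (y - κ * a) / (1 - κ)) ∈ M :=
    cvx hc (t := (y - κ * a) / (1 - κ)) h0 h1 hh hh1 (by ring) (by ring)
  have hEx : (x + lam) / (1 - κ) ≤ (rB * (1 - a) * (1 - τ) + rT * a * τ) / (1 - κ) := by
    apply div_le_div_of_nonneg_right _ hk1.le
    linarith
  rcases le_total 0 (x + lam) with hx0 | hx0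
  · exact mid hc hmid0 hE (div_nonneg hx0 hk1.le) hEx
  · have hxn : x ≤ 0 := by linarith
    have hneg : (x + lam) / (1 - κ) ≤ 0 := div_nonpos_of_nonpos_of_nonneg hx0 hk1.le
    have hy0 : 0 < y := by linarith
    have hy1 : 0 < 1 - y := by linarith
    rcases le_total a y with hay | hay
    · -- towards (0,1)
      have hq : (x * (κ / (1 - y)), 1 - κ) ∈ M := by
        refine cvx hc (t := 1 - κ / (1 - y)) hz h1 ?_ ?_ ?_ ?_
        · rw [sub_nonneg, div_le_one hy1]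
          linarith
        · have : 0 ≤ κ / (1 - y) := by positivity
          linarith
        · ring
        · field_simp
          ring
      have hq2 := hlT _ hq
      have hs : (x * ((1 - (y - κ * a) / (1 - κ)) / (1 - y)), (y - κ * a) / (1 - κ)) ∈ M := by
        refine cvx hc (t := 1 - (1 - (y - κ * a) / (1 - κ)) / (1 - y)) hz h1 ?_ ?_ ?_ ?_
        · rw [sub_nonneg, div_le_one hy1, sub_le_sub_iff_left, le_div_iff₀ hk1]
          nlinarith
        · have : 0 ≤ (1 - (y - κ * a) / (1 - κ)) / (1 - y) := div_nonneg (by linarith) hy1.le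
          linarith
        · ring
        · field_simp
          ring
      refine mid hc hs hmid0 ?_ hneg
      have e1 : x * ((1 - (y - κ * a) / (1 - κ)) / (1 - y)) = (x - (1 - a) * (x * (κ / (1 - y)))) / (1 - κ) := by
        field_simp
        ring
      rw [e1]
      apply div_le_div_of_nonneg_right _ hk1.le
      have : (1 - a) * (-lT) ≤ (1 - a) * (x * (κ / (1 - y))) := mul_le_mul_of_nonneg_left hq2 (by linarith)
      rw [hl2]
      linarith
    · have hq : (x * (κ / y), κ) ∈ M := by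
        refine cvx hc (t := κ / y) h0 hz (by positivity) ((div_le_one hy0).2 hyk) ?_ ?_
        · ring
        · field_simp
          ring
      have hq2 := hlB _ hq
      have hs : (x * ((y - κ * a) / (1 - κ) / y), (y - κ * a) / (1 - κ)) ∈ M := by
        refine cvx hc (t := (y - κ * a) / (1 - κ) / y) h0 hz (div_nonneg hh hy0.le) ?_ ?_ ?_
        · rw [div_le_one hy0, div_le_iff₀ hk1]
          nlinarith
        · ring
        · field_simp
          ring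
      refine mid hc hs hmid0 ?_ hneg
      have e1 : x * ((y - κ * a) / (1 - κ) / y) = (x - a * (x * (κ / y))) / (1 - κ) := by
        field_simp
      rw [e1]
      apply div_le_div_of_nonneg_right _ hk1.le
      have : a * (-lB) ≤ a * (x * (κ / y)) := mul_le_mul_of_nonneg_left hq2 (by linarith)
      rw [hl]
      linarith

theorem exA {κ lB lT : ℝ} (hk : 0 < κ) (hk2 : κ ≤ 1 / 2) (h0 : 0 ≤ lB) (h0' : 0 ≤ lT)
    (h1 : κ * lB ≤ (1 - κ) * lT) (h2 : κ * lT ≤ (1 - κ) * lB) :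
    ∃ a, κ ≤ a ∧ a ≤ 1 - κ ∧ lB * a = lT * (1 - a) := by
  rcases (add_nonneg h0 h0').eq_or_lt with h | h
  · have e1 : lB = 0 := by linarith
    have e2 : lT = 0 := by linarith
    exact ⟨1 / 2, hk2, by linarith, by rw [e1, e2]; ring⟩
  · refine ⟨lT / (lB + lT), ?_, ?_, ?_⟩
    · rw [le_div_iff₀ h]
      linarith
    · rw [div_le_iff₀ h]
      linarith
    · field_simp
      ring

/-- The slice at height y has a leftmost point. -/
theorem leftmost {M : Set (ℝ × ℝ)} (hM : IsCompact M) {y : ℝ} (hn : ((0 : ℝ), y) ∈ M) :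
    ∃ l, 0 ≤ l ∧ (-l, y) ∈ M ∧ ∀ x, (x, y) ∈ M → -l ≤ x := by
  have hcl : IsClosed {v : ℝ × ℝ | v.2 = y} := isClosed_eq continuous_snd continuous_const
  obtain ⟨v, hv, hmin⟩ := (hM.inter_right hcl).exists_isMinOn ⟨((0 : ℝ), y), hn, rfl⟩ continuous_fst.continuousOn
  have hmin' : ∀ x, (x, y) ∈ M → v.1 ≤ x := fun x hx => hmin (a := (x, y)) ⟨hx, rfl⟩
  refine ⟨-v.1, ?_, ?_, ?_⟩
  · have := hmin' 0 hn
    linarith
  · rw [neg_neg]
    have h1 : v.2 = y := hv.2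
    rw [← h1]
    exact hv.1
  · intro x hx
    rw [neg_neg]
    exact hmin' x hx

theorem conc {M : Set (ℝ × ℝ)} (hc : Convex ℝ M) (h0 : ((0 : ℝ), (0 : ℝ)) ∈ M) (h1 : ((0 : ℝ), (1 : ℝ)) ∈ M)
    {κ lB lT : ℝ} (hk : 0 < κ) (hk2 : κ ≤ 1 / 2) (hB : (-lB, κ) ∈ M) (hT : (-lT, 1 - κ) ∈ M)
    (hlB : ∀ x, (x, κ) ∈ M → -lB ≤ x) (hlT : ∀ x, (x, 1 - κ) ∈ M → -lT ≤ x) :
    κ * lB ≤ (1 - κ) * lT ∧ κ * lT ≤ (1 - κ) * lB := by
  have hk1 : 0 < 1 - κ := by linarith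
  constructor
  · have h : (-lB * (κ / (1 - κ)), 1 - κ) ∈ M := by
      refine cvx hc (t := 1 - κ / (1 - κ)) hB h1 ?_ ?_ ?_ ?_
      · rw [sub_nonneg, div_le_one hk1]
        linarith
      · have : 0 ≤ κ / (1 - κ) := by positivity
        linarith
      · ring
      · field_simp
        ring
    have h2 := hlT _ h
    have h3 : lB * (κ / (1 - κ)) ≤ lT := by linarith
    have h4 : lB * (κ / (1 - κ)) = κ * lB / (1 - κ) := by ring
    rw [h4, div_le_iff₀ hk1] at h3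
    linarith
  · have h : (-lT * (κ / (1 - κ)), κ) ∈ M := by
      refine cvx hc (t := κ / (1 - κ)) h0 hT (by positivity) ((div_le_one hk1).2 (by linarith)) ?_ ?_
      · ring
      · field_simp
        ring
    have h2 := hlB _ h
    have h3 : lT * (κ / (1 - κ)) ≤ lB := by linarith
    have h4 : lT * (κ / (1 - κ)) = κ * lT / (1 - κ) := by ring
    rw [h4, div_le_iff₀ hk1] at h3
    linarith

/-- The height of the middle piece. -/
theorem exY {κ a b lB lT rB rT : ℝ} (hk : 0 < κ) (hk2 : κ ≤ 1 / 2) (hlB : 0 ≤ lB) (hlT : 0 ≤ lT) (hrB : 0 ≤ rB)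
    (hrT : 0 ≤ rT) (ha : κ ≤ a) (ha2 : a ≤ 1 - κ) (hb : κ ≤ b) (hb2 : b ≤ 1 - κ) (hla : lB * a = lT * (1 - a))
    (hrb : rB * b = rT * (1 - b)) :
    ∃ Y, κ ≤ Y ∧ Y ≤ 1 - κ ∧
      lB * a + rB * b ≤ rB * (1 - a) + lB * (1 - Y) + (lB * (1 - b) + rB * (1 - Y)) ∧
      lB * a + rB * b ≤ rT * a + lT * Y + (lT * b + rT * Y) ∧
      lB * a + rB * b ≤ rB * (1 - a) + lB * (1 - Y) + (lT * b + rT * Y) ∧
      lB * a + rB * b ≤ rT * a + lT * Y + (lB * (1 - b) + rB * (1 - Y)) := by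
  rcases le_total (a + b) 1 with h | h
  · obtain ⟨Y, hYd⟩ : ∃ Y, Y = max (1 - a - b) κ := ⟨_, rfl⟩
    have y1 : 1 - a - b ≤ Y := by rw [hYd]; exact le_max_left _ _
    have y2 : κ ≤ Y := by rw [hYd]; exact le_max_right _ _
    have y3 : Y ≤ 1 - a := by rw [hYd]; exact max_le (by linarith) (by linarith)
    have y4 : Y ≤ 1 - b := by rw [hYd]; exact max_le (by linarith) (by linarith)
    have y5 : Y ≤ 1 - κ := by rw [hYd]; exact max_le (by linarith) (by linarith)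
    refine ⟨Y, y2, y5, ?_, ?_, ?_, ?_⟩
    · have := mul_nonneg (add_nonneg hlB hrB) (show 0 ≤ 2 - a - b - Y by linarith)
      linarith
    · rw [hla, hrb]
      have := mul_nonneg (add_nonneg hlT hrT) (show 0 ≤ a + b + Y - 1 by linarith)
      linarith
    · have e1 := mul_nonneg hlB (show 0 ≤ 1 - Y - a by linarith)
      have e2 := mul_nonneg hrB (show 0 ≤ 1 - a - b by linarith)
      have e3 := mul_nonneg hlT (show 0 ≤ b by linarith)
      have e4 := mul_nonneg hrT (show 0 ≤ Y by linarith)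
      linarith
    · have e1 := mul_nonneg hlB (show 0 ≤ 1 - b - a by linarith)
      have e2 := mul_nonneg hrB (show 0 ≤ 1 - Y - b by linarith)
      have e3 := mul_nonneg hlT (show 0 ≤ Y by linarith)
      have e4 := mul_nonneg hrT (show 0 ≤ a by linarith)
      linarith
  · obtain ⟨Y, hYd⟩ : ∃ Y, Y = min (2 - a - b) (1 - κ) := ⟨_, rfl⟩
    have y1 : Y ≤ 2 - a - b := by rw [hYd]; exact min_le_left _ _
    have y5 : Y ≤ 1 - κ := by rw [hYd]; exact min_le_right _ _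
    have y3 : 1 - a ≤ Y := by rw [hYd]; exact le_min (by linarith) (by linarith)
    have y4 : 1 - b ≤ Y := by rw [hYd]; exact le_min (by linarith) (by linarith)
    have y2 : κ ≤ Y := by rw [hYd]; exact le_min (by linarith) (by linarith)
    refine ⟨Y, y2, y5, ?_, ?_, ?_, ?_⟩
    · have := mul_nonneg (add_nonneg hlB hrB) (show 0 ≤ 2 - a - b - Y by linarith)
      linarith
    · rw [hla, hrb]
      have := mul_nonneg (add_nonneg hlT hrT) (show 0 ≤ a + b + Y - 1 by linarith)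
      linarith
    · rw [hla, hrb]
      have e1 := mul_nonneg hlT (show 0 ≤ b - (1 - a) by linarith)
      have e2 := mul_nonneg hrT (show 0 ≤ Y - (1 - b) by linarith)
      have e3 := mul_nonneg hlB (show 0 ≤ 1 - Y by linarith)
      have e4 := mul_nonneg hrB (show 0 ≤ 1 - a by linarith)
      linarith
    · rw [hla, hrb]
      have e1 := mul_nonneg hlT (show 0 ≤ Y - (1 - a) by linarith)
      have e2 := mul_nonneg hrT (show 0 ≤ a - (1 - b) by linarith)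
      have e3 := mul_nonneg hlB (show 0 ≤ 1 - b by linarith)
      have e4 := mul_nonneg hrB (show 0 ≤ 1 - Y by linarith)
      linarith

/-- The normalised statement. -/
theorem pairN {M : Set (ℝ × ℝ)} (hM : IsCompact M) (hc : Convex ℝ M) (h0 : ((0 : ℝ), (0 : ℝ)) ∈ M)
    (h1 : ((0 : ℝ), (1 : ℝ)) ∈ M) {κ : ℝ} (hk : 0 < κ) (hk2 : κ ≤ 1 / 2) :
    ∃ T : Fin 3 → ℝ × ℝ, ∀ z ∈ M, κ ≤ z.2 → z.2 ≤ 1 - κ → ∃ j, ∃ l ∈ M, z = T j + (1 - κ) • l := by
  have hk1 : 0 < 1 - κ := by linarith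
  have hmk : ((0 : ℝ), κ) ∈ M := cvx hc (t := κ) h0 h1 hk.le (by linarith) (by ring) (by ring)
  have hmk' : ((0 : ℝ), 1 - κ) ∈ M := cvx hc (t := 1 - κ) h0 h1 (by linarith) (by linarith) (by ring) (by ring)
  obtain ⟨M', hM'⟩ : ∃ M' : Set (ℝ × ℝ), M' = {v | (-v.1, v.2) ∈ M} := ⟨_, rfl⟩
  have mem' : ∀ x y : ℝ, (x, y) ∈ M' ↔ (-x, y) ∈ M := by intro x y; rw [hM']; rfl
  have hcM' : Convex ℝ M' := by
    rintro ⟨x, y⟩ hv ⟨x', y'⟩ hv' s t hs ht hst
    rw [mem'] at hv hv'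
    show (s * x + t * x', s * y + t * y') ∈ M'
    rw [mem']
    have e : s = 1 - t := by linarith
    exact cvx hc (t := t) hv hv' ht (by linarith) (by rw [e]; ring) (by rw [e])
  have h0' : ((0 : ℝ), (0 : ℝ)) ∈ M' := by rw [mem', neg_zero]; exact h0
  have h1' : ((0 : ℝ), (1 : ℝ)) ∈ M' := by rw [mem', neg_zero]; exact h1
  have hcompM' : IsCompact M' := by
    have e : M' = (fun v : ℝ × ℝ => (-v.1, v.2)) '' M := by
      ext ⟨x, y⟩
      rw [mem']
      constructor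
      · intro h
        exact ⟨(-x, y), h, by simp⟩
      · rintro ⟨⟨u, v⟩, hu, he⟩
        have e1 : -u = x := congrArg Prod.fst he
        have e2 : v = y := congrArg Prod.snd he
        rw [← e1, ← e2, neg_neg]
        exact hu
    rw [e]
    exact hM.image (continuous_fst.neg.prodMk continuous_snd)
  obtain ⟨lB, lB0, lBm, lBx⟩ := leftmost hM hmk
  obtain ⟨lT, lT0, lTm, lTx⟩ := leftmost hM hmk'
  obtain ⟨rB, rB0, rBm, rBx⟩ := leftmost hcompM' (y := κ) (by rw [mem', neg_zero]; exact hmk)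
  obtain ⟨rT, rT0, rTm, rTx⟩ := leftmost hcompM' (y := 1 - κ) (by rw [mem', neg_zero]; exact hmk')
  have rBM : (rB, κ) ∈ M := by rw [mem', neg_neg] at rBm; exact rBm
  have rTM : (rT, 1 - κ) ∈ M := by rw [mem', neg_neg] at rTm; exact rTm
  have lBM' : (lB, κ) ∈ M' := by rw [mem']; exact lBm
  have lTM' : (lT, 1 - κ) ∈ M' := by rw [mem']; exact lTm
  obtain ⟨c1, c2⟩ := conc hc h0 h1 hk hk2 lBm lTm lBx lTx
  obtain ⟨c3, c4⟩ := conc hcM' h0' h1' hk hk2 rBm rTm rBx rTx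
  obtain ⟨a, ha, ha2, hla⟩ := exA hk hk2 lB0 lT0 c1 c2
  obtain ⟨b, hb, hb2, hrb⟩ := exA hk hk2 rB0 rT0 c3 c4
  obtain ⟨Y, hY, hY2, i1, i2, i3, i4⟩ := exY hk hk2 lB0 lT0 rB0 rT0 ha ha2 hb hb2 hla hrb
  obtain ⟨X, hX⟩ : ∃ X, X = min (rB * (1 - a) + lB * (1 - Y)) (rT * a + lT * Y) - lB * a := ⟨_, rfl⟩
  have x1 : lB * a + X ≤ rB * (1 - a) + lB * (1 - Y) := by
    rw [hX]
    have := min_le_left (rB * (1 - a) + lB * (1 - Y)) (rT * a + lT * Y)
    linarith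
  have x2 : lB * a + X ≤ rT * a + lT * Y := by
    rw [hX]
    have := min_le_right (rB * (1 - a) + lB * (1 - Y)) (rT * a + lT * Y)
    linarith
  have x3 : rB * b - X ≤ lB * (1 - b) + rB * (1 - Y) := by
    rw [hX]
    rcases min_choice (rB * (1 - a) + lB * (1 - Y)) (rT * a + lT * Y) with e | e <;> rw [e] <;> linarith
  have x4 : rB * b - X ≤ lT * b + rT * Y := by
    rw [hX]
    rcases min_choice (rB * (1 - a) + lB * (1 - Y)) (rT * a + lT * Y) with e | e <;> rw [e] <;> linarith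
  refine ⟨![(-(lB * a), κ * a), (X, κ * Y), (rB * b, κ * b)], ?_⟩
  rintro ⟨x, y⟩ hz hz1 hz2
  have hz1' : κ ≤ y := hz1
  have hz2' : y ≤ 1 - κ := hz2
  obtain ⟨τ, t0, t1, hy⟩ : ∃ τ, 0 ≤ τ ∧ τ ≤ 1 ∧ y = κ + τ * (1 - 2 * κ) := by
    rcases hk2.eq_or_lt with e | e
    · exact ⟨0, le_rfl, zero_le_one, by linarith⟩
    · have hp : 0 < 1 - 2 * κ := by linarith
      refine ⟨(y - κ) / (1 - 2 * κ), div_nonneg (by linarith) hp.le, (div_le_one hp).2 (by linarith), ?_⟩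
      rw [div_mul_cancel₀ _ hp.ne']
      ring
  have back : ∀ u v m n : ℝ, m = (x - u) / (1 - κ) → n = (y - v) / (1 - κ) →
      ((x, y) : ℝ × ℝ) = (u, v) + (1 - κ) • (m, n) := by
    intro u v m n hm hn
    ext
    · show x = u + (1 - κ) * m
      rw [hm, mul_div_cancel₀ _ hk1.ne']
      ring
    · show y = v + (1 - κ) * n
      rw [hn, mul_div_cancel₀ _ hk1.ne']
      ring
  rcases le_or_gt x (-(lB * a) + (rB * (1 - a) * (1 - τ) + rT * a * τ)) with h | h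
  · have := outer hc h0 h1 hk hk2 rBM rTM lBx lTx ha ha2 rfl hla (mul_nonneg lB0 (by linarith)) t0 t1 hy hz h
    refine ⟨0, _, this, ?_⟩
    exact back _ _ _ _ (by rw [sub_neg_eq_add]) rfl
  rcases le_or_gt (rB * b - (lB * (1 - b) * (1 - τ) + lT * b * τ)) x with h' | h'
  · have := outer hcM' h0' h1' hk hk2 lBM' lTM' rBx rTx hb hb2 rfl hrb (mul_nonneg rB0 (by linarith)) t0 t1 hy
      (x := -x) (by rw [mem', neg_neg]; exact hz) (by linarith)
    rw [mem'] at this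
    refine ⟨2, _, this, ?_⟩
    exact back _ _ _ _ (by rw [← neg_div]; congr 1; ring) rfl
  · have hR := ext_r hc h0 h1 hk hk2 rBM rTM hY hY2 t0 t1 hy
    have hL := ext_r hcM' h0' h1' hk hk2 lBM' lTM' hY hY2 t0 t1 hy
    rw [mem'] at hL
    have s0 : 0 ≤ 1 - τ := by linarith
    have hm := mid hc hL hR (X := (x - X) / (1 - κ)) ?_ ?_
    · exact ⟨1, _, hm, back _ _ _ _ rfl rfl⟩
    · rw [← neg_div]
      apply div_le_div_of_nonneg_right _ hk1.le
      have e1 := mul_le_mul_of_nonneg_left x1 s0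
      have e2 := mul_le_mul_of_nonneg_left x2 t0
      linarith
    · apply div_le_div_of_nonneg_right _ hk1.le
      have e1 := mul_le_mul_of_nonneg_left x3 s0
      have e2 := mul_le_mul_of_nonneg_left x4 t0
      linarith

/-- The flat case. -/
theorem flat {L : Set (ℝ × ℝ)} (hL : IsCompact L) (hc : Convex ℝ L) (hn : L.Nonempty) {κ p : ℝ} (hk : 0 < κ)
    (hk2 : κ ≤ 2 / 3) (hp : ∀ v ∈ L, v.2 = p) :
    ∃ T : Fin 3 → ℝ × ℝ, ∀ z ∈ L, ∃ j, ∃ l ∈ L, z = T j + (1 - κ) • l := by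
  have hk1 : 0 < 1 - κ := by linarith
  obtain ⟨u, hu, hmin⟩ := hL.exists_isMinOn hn continuous_fst.continuousOn
  obtain ⟨v, hv, hmax⟩ := hL.exists_isMaxOn hn continuous_fst.continuousOn
  have hu' : (u.1, p) ∈ L := by rw [← hp u hu]; exact hu
  have hv' : (v.1, p) ∈ L := by rw [← hp v hv]; exact hv
  have hmin' : ∀ z ∈ L, u.1 ≤ z.1 := fun z hz => hmin hz
  have hmax' : ∀ z ∈ L, z.1 ≤ v.1 := fun z hz => hmax hz
  refine ⟨![(κ * u.1, κ * p), (κ * ((u.1 + v.1) / 2), κ * p), (κ * v.1, κ * p)], ?_⟩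
  rintro ⟨x, y⟩ hz
  have hy : y = p := hp _ hz
  have hxu : u.1 ≤ x := hmin' _ hz
  have hxv : x ≤ v.1 := hmax' _ hz
  have back : ∀ c m : ℝ, m = (x - c) / (1 - κ) → ((x, y) : ℝ × ℝ) = (c, κ * p) + (1 - κ) • (m, p) := by
    intro c m hm
    ext
    · show x = c + (1 - κ) * m
      rw [hm, mul_div_cancel₀ _ hk1.ne']
      ring
    · show y = κ * p + (1 - κ) * p
      rw [hy]
      ring
  have key : ∀ c : ℝ, (1 - κ) * u.1 ≤ x - c → x - c ≤ (1 - κ) * v.1 → ((x - c) / (1 - κ), p) ∈ L := by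
    intro c h1 h2
    refine mid hc hu' hv' ?_ ?_
    · rw [le_div_iff₀ hk1]
      linarith
    · rw [div_le_iff₀ hk1]
      linarith
  have huv : u.1 ≤ v.1 := hxu.trans hxv
  rcases le_or_gt x (κ * u.1 + (1 - κ) * v.1) with h | h
  · exact ⟨0, _, key (κ * u.1) (by linarith) (by linarith), back _ _ rfl⟩
  rcases le_or_gt (κ * v.1 + (1 - κ) * u.1) x with h' | h'
  · exact ⟨2, _, key (κ * v.1) (by linarith) (by linarith), back _ _ rfl⟩
  · refine ⟨1, _, key (κ * ((u.1 + v.1) / 2)) ?_ ?_, back _ _ rfl⟩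
    · nlinarith
    · nlinarith

theorem pairP : PairP := by
  intro L hL hc hn κ hk hk2 p q hpq ⟨P, hP, hPp⟩ ⟨Q, hQ, hQq⟩
  have hw0 : 0 ≤ p + q := by
    have := hpq P hP
    linarith [this.1, this.2]
  rcases hw0.eq_or_lt with hw | hw
  · obtain ⟨T, hT⟩ := flat hL hc hn hk hk2 (p := p) (fun v hv => by
      have := hpq v hv
      linarith [this.1, this.2])
    exact ⟨T, fun z hz _ _ => hT z hz⟩
  rcases lt_or_ge (1 / 2) κ with hκ | hκ
  · refine ⟨fun _ => 0, fun z hz h1 h2 => ?_⟩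
    exfalso
    nlinarith
  have hk1 : 0 < 1 - κ := by linarith
  obtain ⟨F, hF⟩ : ∃ F : ℝ × ℝ → ℝ × ℝ,
    F = fun v => (v.1 - (Q.1 + (P.1 - Q.1) * ((v.2 + q) / (p + q))), (v.2 + q) / (p + q)) := ⟨_, rfl⟩
  have F1 : ∀ v, (F v).1 = v.1 - (Q.1 + (P.1 - Q.1) * ((v.2 + q) / (p + q))) := fun v => by rw [hF]
  have F2 : ∀ v, (F v).2 = (v.2 + q) / (p + q) := fun v => by rw [hF]
  have hcont : Continuous F := by
    rw [hF]
    fun_prop
  have hcv : Convex ℝ (F '' L) := by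
    rintro _ ⟨u, hu, rfl⟩ _ ⟨v, hv, rfl⟩ s t hs ht hst
    refine ⟨s • u + t • v, hc hu hv hs ht hst, ?_⟩
    have e : s = 1 - t := by linarith
    ext
    · show (F (s • u + t • v)).1 = s * (F u).1 + t * (F v).1
      rw [F1, F1, F1]
      show s * u.1 + t * v.1 - (Q.1 + (P.1 - Q.1) * ((s * u.2 + t * v.2 + q) / (p + q))) = _
      rw [e]
      field_simp
      ring
    · show (F (s • u + t • v)).2 = s * (F u).2 + t * (F v).2
      rw [F2, F2, F2]
      show (s * u.2 + t * v.2 + q) / (p + q) = _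
      rw [e]
      field_simp
      ring
  have m0 : ((0 : ℝ), (0 : ℝ)) ∈ F '' L := by
    refine ⟨Q, hQ, ?_⟩
    ext
    · rw [F1, hQq]
      show _ = (0 : ℝ)
      rw [neg_add_cancel, zero_div]
      ring
    · rw [F2, hQq]
      show _ = (0 : ℝ)
      rw [neg_add_cancel, zero_div]
  have m1 : ((0 : ℝ), (1 : ℝ)) ∈ F '' L := by
    refine ⟨P, hP, ?_⟩
    ext
    · rw [F1, hPp, div_self hw.ne']
      show _ = (0 : ℝ)
      ring
    · rw [F2, hPp, div_self hw.ne']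
  obtain ⟨T, hT⟩ := pairN (hL.image hcont) hcv m0 m1 hk hκ
  refine ⟨fun j => ((T j).1 + κ * Q.1 + (P.1 - Q.1) * (T j).2, (p + q) * (T j).2 - κ * q), ?_⟩
  intro z hz h1 h2
  have g1 : κ ≤ (F z).2 := by
    rw [F2, le_div_iff₀ hw]
    linarith
  have g2 : (F z).2 ≤ 1 - κ := by
    rw [F2, div_le_iff₀ hw]
    linarith
  obtain ⟨j, _, ⟨l, hl, rfl⟩, e⟩ := hT _ ⟨z, hz, rfl⟩ g1 g2
  refine ⟨j, l, hl, ?_⟩
  have e1 : (F z).1 = (T j).1 + (1 - κ) * (F l).1 := congrArg Prod.fst e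
  have e2 : (F z).2 = (T j).2 + (1 - κ) * (F l).2 := congrArg Prod.snd e
  rw [F1, F1] at e1
  rw [F2, F2] at e2
  have e3 : z.2 + q = (p + q) * (T j).2 + (1 - κ) * (l.2 + q) := by
    field_simp at e2
    linarith
  ext
  · show z.1 = (T j).1 + κ * Q.1 + (P.1 - Q.1) * (T j).2 + (1 - κ) * l.1
    linear_combination e1 + (P.1 - Q.1) * e2
  · show z.2 = (p + q) * (T j).2 - κ * q + (1 - κ) * l.2
    linear_combination e3

end Pool.Agent.H90.PP
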